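import Pool.Agent.H96.JCT.Stmts

/-!
Row LCO of the board jct (MP_ffb5eb_co): the total change is locally constant off the walk.
-/

namespace Pool.JCT

open Complex Set Topology Filter

theorem lco_tpi_ne : tpi ≠ 0 := by
  unfold tpi
  exact Complex.two_pi_I_ne_zero

theorem lco_thm (h1 : CPT_S) (h2 : WIN_S) : LCO_S := by
  intro k f a b h r hw hh ho
  have e1 : ∀ i < k, ∀ᶠ t in 𝓝 r, Off (f i) (a i) (b i) (h t) := fun i hi =>
    hh.continuousAt.eventually ((h1 (f i) (a i) (b i) (h r) (hw.cont i hi) (ho i hi)).1)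
  have e2 : ∀ᶠ t in 𝓝 r, ∀ i ∈ Finset.range k, Off (f i) (a i) (b i) (h t) :=
    (Filter.eventually_all_finset (Finset.range k)).2 fun i hi => e1 i (Finset.mem_range.1 hi)
  have e3 : Tendsto (fun t => W k f a b (h t)) (𝓝 r) (𝓝 (W k f a b (h r))) := by
    unfold W
    refine tendsto_finsetSum _ fun i hi => ?_
    exact ((h1 (f i) (a i) (b i) (h r) (hw.cont i (Finset.mem_range.1 hi))
      (ho i (Finset.mem_range.1 hi))).2).comp hh.continuousAt
  have hp : 0 < ‖tpi‖ := norm_pos_iff.2 lco_tpi_ne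
  have e4 : ∀ᶠ t in 𝓝 r, dist (W k f a b (h t)) (W k f a b (h r)) < ‖tpi‖ :=
    Metric.tendsto_nhds.1 e3 _ hp
  obtain ⟨δ, hδ, H⟩ := Metric.eventually_nhds_iff.1 (e2.and e4)
  refine ⟨δ, hδ, fun t ht => ?_⟩
  have h3 := H (y := t) (by rw [Real.dist_eq]; exact ht)
  have h4 : ∀ i < k, Off (f i) (a i) (b i) (h t) := fun i hi => h3.1 i (Finset.mem_range.2 hi)
  refine ⟨h4, ?_⟩
  obtain ⟨n, hn⟩ := h2 k f a b (h t) hw h4
  obtain ⟨n0, hn0⟩ := h2 k f a b (h r) hw ho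
  have h5 := h3.2
  rw [hn, hn0, dist_eq_norm, ← sub_mul, norm_mul, ← Int.cast_sub, Complex.norm_intCast] at h5
  have h6 : |((n - n0 : ℤ) : ℝ)| < 1 := by
    by_contra h7
    rw [not_lt] at h7
    nlinarith
  rw [← Int.cast_abs] at h6
  have h7 : |n - n0| < 1 := by exact_mod_cast h6
  have h8 : n - n0 = 0 := Int.abs_lt_one_iff.1 h7
  rw [hn, hn0, show n = n0 by omega]

end Pool.JCT
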